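import Mathlib

namespace Pool.Agent.Results.MP_f77be9_al.NoAnti

open Matrix

variable {K : Type} [Field K] {n : ℕ}

/-- irreducible tridiagonal -/
def ITri (M : Matrix (Fin n) (Fin n) K) : Prop :=
  ∀ i j : Fin n, (i.val + 1 < j.val ∨ j.val + 1 < i.val → M i j = 0) ∧
    (i.val + 1 = j.val ∨ j.val + 1 = i.val → M i j ≠ 0)

/-- the matrix of `X` in the basis formed by the columns of `P` -/
def inB (P : GL (Fin n) K) (X : Matrix (Fin n) (Fin n) K) : Matrix (Fin n) (Fin n) K :=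
  (P⁻¹).val * X * P.val

def LeonardTriple (X Y Z : Matrix (Fin n) (Fin n) K) : Prop :=
  (∃ P, (inB P X).IsDiag ∧ ITri (inB P Y) ∧ ITri (inB P Z)) ∧
  (∃ P, (inB P Y).IsDiag ∧ ITri (inB P X) ∧ ITri (inB P Z)) ∧
  (∃ P, (inB P Z).IsDiag ∧ ITri (inB P X) ∧ ITri (inB P Y))

def tri (M : Matrix (Fin 4) (Fin 4) ℚ) : Prop :=
  ∀ i j : Fin 4, (i.val + 1 < j.val ∨ j.val + 1 < i.val → M i j = 0) ∧
    (i.val + 1 = j.val ∨ j.val + 1 = i.val → M i j ≠ 0)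

def ch (P Q X Y Z : Matrix (Fin 4) (Fin 4) ℚ) : Prop :=
  P * Q = 1 ∧ Q * P = 1 ∧ (∀ i j, i ≠ j → (Q * X * P) i j = 0) ∧ tri (Q * Y * P) ∧ tri (Q * Z * P)

theorem third {P Q X Y Z : Matrix (Fin 4) (Fin 4) ℚ} (h : ch P Q X Y Z) :
    ∃ g : GL (Fin 4) ℚ, (inB g X).IsDiag ∧ ITri (inB g Y) ∧ ITri (inB g Z) :=
  ⟨⟨P, Q, h.1, h.2.1⟩, fun i j hij => h.2.2.1 i j hij, h.2.2.2.1, h.2.2.2.2⟩

def A : Matrix (Fin 4) (Fin 4) ℚ := !![3, 0, 0, 0; 0, 1, 0, 0; 0, 0, -1, 0; 0, 0, 0, -3]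
def B : Matrix (Fin 4) (Fin 4) ℚ := !![0, 3, 0, 0; 1, 0, 2, 0; 0, 2, 0, 1; 0, 0, 3, 0]
def C : Matrix (Fin 4) (Fin 4) ℚ := !![3, 24, 0, 0; 1, 1, 16, 0; 0, 2, -1, 8; 0, 0, 3, -3]
def PB : Matrix (Fin 4) (Fin 4) ℚ := !![1, -3, 3, -1; 1, -1, -1, 1; 1, 1, -1, -1; 1, 3, 3, 1]
def QB : Matrix (Fin 4) (Fin 4) ℚ :=
  !![1/8, 3/8, 3/8, 1/8; -1/8, -1/8, 1/8, 1/8; 1/8, -1/8, -1/8, 1/8; -1/8, 3/8, -3/8, 1/8]
def PC : Matrix (Fin 4) (Fin 4) ℚ := !![64, -32, 16, -8; 16, 0, -4, 4; 4, 2, 0, -2; 1, 1, 1, 1]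
def QC : Matrix (Fin 4) (Fin 4) ℚ :=
  !![1/216, 1/36, 1/18, 1/27; -1/72, 0, 1/6, 2/9; 1/72, -1/12, 0, 4/9; -1/216, 1/18, -2/9, 8/27]

theorem c1 : ch 1 1 A B C := by unfold ch tri; decide +kernel
theorem c2 : ch PB QB B A C := by unfold ch tri; decide +kernel
theorem c3 : ch PC QC C A B := by unfold ch tri; decide +kernel

def E0 : Matrix (Fin 4) (Fin 4) ℚ := (A - 1) * (A + 1) * (A + (3 : ℚ) • 1)
def E1 : Matrix (Fin 4) (Fin 4) ℚ := (A - (3 : ℚ) • 1) * (A + 1) * (A + (3 : ℚ) • 1)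

theorem result : ∃ x y z : Matrix (Fin 4) (Fin 4) ℚ, LeonardTriple x y z ∧
    ∀ σ : Matrix (Fin 4) (Fin 4) ℚ ≃ₗ[ℚ] Matrix (Fin 4) (Fin 4) ℚ,
      (∀ X Y, σ (X * Y) = σ Y * σ X) → σ x = x →
      ∀ c : ℚ, σ (x * y - y * x) ≠ c • (x * z - z * x) := by
  refine ⟨A, B, C, ⟨third c1, third c2, third c3⟩, fun σ hσ hx c hc => ?_⟩
  have h1 : σ 1 = 1 := by
    have := hσ (σ.symm 1) 1
    rw [Matrix.mul_one, σ.apply_symm_apply, Matrix.mul_one] at this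
    exact this.symm
  have e0 : σ E0 = E0 := by
    unfold E0
    rw [hσ, hσ, map_add, map_add, map_sub, map_smul, hx, h1]
    decide +kernel
  have e1 : σ E1 = E1 := by
    unfold E1
    rw [hσ, hσ, map_add, map_add, map_sub, map_smul, hx, h1]
    decide +kernel
  have u : E0 * ((A * B - B * A) * (E1 * ((A * B - B * A) * E0))) = (9216 : ℚ) • E0 := by
    decide +kernel
  have v : E0 * (A * C - C * A) * E1 * (A * C - C * A) * E0 = (73728 : ℚ) • E0 := by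
    decide +kernel
  have w := congrArg σ u
  rw [hσ, hσ, hσ, hσ, map_smul, e0, e1, hc] at w
  simp only [Matrix.mul_smul, Matrix.smul_mul, v, smul_smul] at w
  have w0 := congrFun (congrFun w 0) 0
  have z0 : E0 0 0 = 48 := by decide +kernel
  simp only [Matrix.smul_apply, z0, smul_eq_mul] at w0
  have hq : (4 * c) * (4 * c) = 2 := by linarith
  have : Irrational (Real.sqrt 2) := irrational_sqrt_two
  apply this
  refine ⟨|4 * c|, ?_⟩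
  have h2 : (2 : ℝ) = ((4 * c : ℚ) : ℝ) * ((4 * c : ℚ) : ℝ) := by exact_mod_cast hq.symm
  rw [h2, Real.sqrt_mul_self_eq_abs]
  simp

end Pool.Agent.Results.MP_f77be9_al.NoAnti
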